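import Mathlib

/-!
# A bounded tolerance graph which is not a max-tolerance graph: K_{3,3}
-/

set_option autoImplicit false

namespace Pool.Agent.Results.MP_78c384_co.CompleteBipartiteThreeThree

/-- A tolerance representation: a closed interval [L v, R v] and a tolerance t v > 0 for each
vertex v. -/
structure TolRep (V : Type) where
  /-- left end -/
  L : V → ℝ
  /-- right end -/
  R : V → ℝ
  /-- tolerance -/
  t : V → ℝ
  /-- the intervals are intervals -/
  le : ∀ v, L v ≤ R v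
  /-- tolerances are positive -/
  pos : ∀ v, 0 < t v

/-- The length of the intersection of the intervals of x and y (0 if it is empty). -/
noncomputable def TolRep.meet {V : Type} (ρ : TolRep V) (x y : V) : ℝ :=
  max 0 (min (ρ.R x) (ρ.R y) - max (ρ.L x) (ρ.L y))

/-- Bounded tolerance graph: t v is at most the length of the interval of v, and distinct x, y are
adjacent exactly if the intersection has length at least the minimum of the tolerances. -/
def IsBoundedTolerance {V : Type} (G : SimpleGraph V) : Prop :=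
  ∃ ρ : TolRep V, (∀ v, ρ.t v ≤ ρ.R v - ρ.L v) ∧
    ∀ x y, x ≠ y → (G.Adj x y ↔ min (ρ.t x) (ρ.t y) ≤ ρ.meet x y)

/-- Max-tolerance graph: distinct x, y are adjacent exactly if the intersection has length at
least the maximum of the tolerances. -/
def IsMaxTolerance {V : Type} (G : SimpleGraph V) : Prop :=
  ∃ ρ : TolRep V, ∀ x y, x ≠ y → (G.Adj x y ↔ max (ρ.t x) (ρ.t y) ≤ ρ.meet x y)

/-! ## The representation of K_{3,3} -/

theorem bounded : IsBoundedTolerance (completeBipartiteGraph (Fin 3) (Fin 3)) := by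
  refine ⟨⟨Sum.elim (fun i => 2 * (i.val : ℝ) + 3) (fun j => -(j.val : ℝ)),
    Sum.elim (fun i => 2 * (i.val : ℝ) + 4) (fun j => 20 - (j.val : ℝ)),
    Sum.elim (fun _ => 1) (fun _ => 20), ?_, ?_⟩, ?_, ?_⟩
  · rintro (i | j)
    · simp only [Sum.elim_inl]; linarith
    · simp only [Sum.elim_inr]; linarith
  · rintro (i | j) <;> simp
  · rintro (i | j)
    · simp only [Sum.elim_inl]; linarith
    · simp only [Sum.elim_inr]; linarith
  · have h0 : ∀ i : Fin 3, (0 : ℝ) ≤ (i.val : ℝ) := fun i => Nat.cast_nonneg _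
    have h2 : ∀ i : Fin 3, (i.val : ℝ) ≤ 2 := by
      intro i
      have : i.val ≤ 2 := by omega
      exact_mod_cast this
    rintro (i | i) (j | j) hne
    · have hij : i.val < j.val ∨ j.val < i.val := by
        rcases lt_trichotomy i.val j.val with h | h | h
        · exact Or.inl h
        · exact absurd (congrArg Sum.inl (Fin.ext h)) hne
        · exact Or.inr h
      simp only [completeBipartiteGraph_adj, Sum.isLeft_inl, Sum.isRight_inl, TolRep.meet,
        Sum.elim_inl, min_self]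
      constructor
      · intro h; simp at h
      · intro h
        exfalso
        rw [le_max_iff] at h
        rcases h with h | h
        · linarith
        · rcases hij with hij | hij
          · have h3 : (i.val : ℝ) + 1 ≤ (j.val : ℝ) := by exact_mod_cast hij
            have h4 := min_le_left (2 * (i.val : ℝ) + 4) (2 * (j.val : ℝ) + 4)
            have h5 := le_max_right (2 * (i.val : ℝ) + 3) (2 * (j.val : ℝ) + 3)
            linarith
          · have h3 : (j.val : ℝ) + 1 ≤ (i.val : ℝ) := by exact_mod_cast hij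
            have h4 := min_le_right (2 * (i.val : ℝ) + 4) (2 * (j.val : ℝ) + 4)
            have h5 := le_max_left (2 * (i.val : ℝ) + 3) (2 * (j.val : ℝ) + 3)
            linarith
    · simp only [completeBipartiteGraph_adj, TolRep.meet, Sum.elim_inl, Sum.elim_inr]
      have e1 : min (2 * (i.val : ℝ) + 4) (20 - (j.val : ℝ)) = 2 * (i.val : ℝ) + 4 := by
        apply min_eq_left
        linarith [h0 i, h2 i, h0 j, h2 j]
      have e2 : max (2 * (i.val : ℝ) + 3) (-(j.val : ℝ)) = 2 * (i.val : ℝ) + 3 := by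
        apply max_eq_left
        linarith [h0 i, h2 i, h0 j, h2 j]
      rw [e1, e2]
      norm_num
    · simp only [completeBipartiteGraph_adj, TolRep.meet, Sum.elim_inl, Sum.elim_inr]
      have e1 : min (20 - (i.val : ℝ)) (2 * (j.val : ℝ) + 4) = 2 * (j.val : ℝ) + 4 := by
        apply min_eq_right
        linarith [h0 i, h2 i, h0 j, h2 j]
      have e2 : max (-(i.val : ℝ)) (2 * (j.val : ℝ) + 3) = 2 * (j.val : ℝ) + 3 := by
        apply max_eq_right
        linarith [h0 i, h2 i, h0 j, h2 j]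
      rw [e1, e2]
      norm_num
    · have hij : i.val < j.val ∨ j.val < i.val := by
        rcases lt_trichotomy i.val j.val with h | h | h
        · exact Or.inl h
        · exact absurd (congrArg Sum.inr (Fin.ext h)) hne
        · exact Or.inr h
      simp only [completeBipartiteGraph_adj, Sum.isLeft_inr, Sum.isRight_inr, TolRep.meet,
        Sum.elim_inr, min_self]
      constructor
      · intro h; simp at h
      · intro h
        exfalso
        rw [le_max_iff] at h
        rcases h with h | h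
        · linarith
        · rcases hij with hij | hij
          · have h3 : (i.val : ℝ) + 1 ≤ (j.val : ℝ) := by exact_mod_cast hij
            have h4 := min_le_right (20 - (i.val : ℝ)) (20 - (j.val : ℝ))
            have h5 := le_max_left (-(i.val : ℝ)) (-(j.val : ℝ))
            linarith
          · have h3 : (j.val : ℝ) + 1 ≤ (i.val : ℝ) := by exact_mod_cast hij
            have h4 := min_le_left (20 - (i.val : ℝ)) (20 - (j.val : ℝ))
            have h5 := le_max_right (-(i.val : ℝ)) (-(j.val : ℝ))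
            linarith

/-! ## K_{3,3} is not a max-tolerance graph -/

/-- The sum of the coordinatewise maxima. -/
noncomputable def M (p q : Fin 3 → ℝ) : ℝ := max (p 0) (q 0) + max (p 1) (q 1) + max (p 2) (q 2)

theorem M_comm (p q : Fin 3 → ℝ) : M p q = M q p := by
  simp only [M, max_comm]

/-- A pair of type i: q is larger in coordinate i only. -/
def T (i : Fin 3) (p q : Fin 3 → ℝ) : Prop :=
  p i < q i ∧ q (i + 1) ≤ p (i + 1) ∧ q (i + 2) ≤ p (i + 2)

theorem M_T {i : Fin 3} {p q : Fin 3 → ℝ} (h : T i p q) :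
    M p q = q i + p (i + 1) + p (i + 2) := by
  obtain ⟨h1, h2, h3⟩ := h
  fin_cases i
  · simp only [Fin.zero_eta, Fin.isValue, zero_add] at *
    rw [M, max_eq_right h1.le, max_eq_left h2, max_eq_left h3]
  · have e1 : (1 : Fin 3) + 1 = 2 := rfl
    have e2 : (1 : Fin 3) + 2 = 0 := rfl
    simp only [Fin.mk_one, Fin.isValue, e1, e2] at *
    rw [M, max_eq_right h1.le, max_eq_left h2, max_eq_left h3]
    ring
  · have e1 : (2 : Fin 3) + 1 = 0 := rfl
    have e2 : (2 : Fin 3) + 2 = 1 := rfl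
    simp only [Fin.reduceFinMk, Fin.isValue, e1, e2] at *
    rw [M, max_eq_right h1.le, max_eq_left h2, max_eq_left h3]
    ring

/-- Any choice of coordinates is at most M. -/
theorem le_M (i : Fin 3) (p q : Fin 3 → ℝ) :
    q i + p (i + 1) + p (i + 2) ≤ M p q ∧ p i + q (i + 1) + p (i + 2) ≤ M p q ∧
      p i + p (i + 1) + q (i + 2) ≤ M p q := by
  have a0 := le_max_left (p 0) (q 0)
  have a1 := le_max_left (p 1) (q 1)
  have a2 := le_max_left (p 2) (q 2)
  have b0 := le_max_right (p 0) (q 0)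
  have b1 := le_max_right (p 1) (q 1)
  have b2 := le_max_right (p 2) (q 2)
  fin_cases i
  · simp only [Fin.zero_eta, Fin.isValue, zero_add, M]
    refine ⟨?_, ?_, ?_⟩ <;> linarith
  · have e1 : (1 : Fin 3) + 1 = 2 := rfl
    have e2 : (1 : Fin 3) + 2 = 0 := rfl
    simp only [Fin.mk_one, Fin.isValue, e1, e2, M]
    refine ⟨?_, ?_, ?_⟩ <;> linarith
  · have e1 : (2 : Fin 3) + 1 = 0 := rfl
    have e2 : (2 : Fin 3) + 2 = 1 := rfl
    simp only [Fin.reduceFinMk, Fin.isValue, e1, e2, M]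
    refine ⟨?_, ?_, ?_⟩ <;> linarith

theorem exists_type {p q : Fin 3 → ℝ} (hp : M p p ≤ 0) (hq : M q q ≤ 0) (h : 0 < M p q) :
    ∃ i, T i p q ∨ T i q p := by
  simp only [M, max_self] at hp hq
  have e1 : (1 : Fin 3) + 1 = 2 := rfl
  have e2 : (1 : Fin 3) + 2 = 0 := rfl
  have e3 : (2 : Fin 3) + 1 = 0 := rfl
  have e4 : (2 : Fin 3) + 2 = 1 := rfl
  unfold M at h
  rcases lt_or_ge (p 0) (q 0) with h0 | h0
  · rw [max_eq_right h0.le] at h
    rcases lt_or_ge (p 1) (q 1) with h1 | h1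
    · rw [max_eq_right h1.le] at h
      rcases lt_or_ge (q 2) (p 2) with h2 | h2
      · exact ⟨2, Or.inr ⟨h2, by rw [e3]; exact h0.le, by rw [e4]; exact h1.le⟩⟩
      · rw [max_eq_right h2] at h; linarith
    · rw [max_eq_left h1] at h
      rcases lt_or_ge (p 2) (q 2) with h2 | h2
      · rw [max_eq_right h2.le] at h
        rcases lt_or_eq_of_le h1 with h1' | h1'
        · exact ⟨1, Or.inr ⟨h1', by rw [e1]; exact h2.le, by rw [e2]; exact h0.le⟩⟩
        · linarith
      · exact ⟨0, Or.inl ⟨h0, by simpa using h1, by simpa using h2⟩⟩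
  · rw [max_eq_left h0] at h
    rcases lt_or_ge (p 1) (q 1) with h1 | h1
    · rw [max_eq_right h1.le] at h
      rcases lt_or_ge (p 2) (q 2) with h2 | h2
      · rw [max_eq_right h2.le] at h
        rcases lt_or_eq_of_le h0 with h0' | h0'
        · exact ⟨0, Or.inr ⟨h0', by simpa using h1.le, by simpa using h2.le⟩⟩
        · linarith
      · exact ⟨1, Or.inl ⟨h1, by rw [e1]; exact h2, by rw [e2]; exact h0⟩⟩
    · rw [max_eq_left h1] at h
      rcases lt_or_ge (p 2) (q 2) with h2 | h2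
      · exact ⟨2, Or.inl ⟨h2, by rw [e3]; exact h0, by rw [e4]; exact h1⟩⟩
      · rw [max_eq_left h2] at h; linarith

/-- Two pairs of the same type cannot be completely joined. -/
theorem same_type {i : Fin 3} {a a' b b' : Fin 3 → ℝ} (hA : T i a a') (hB : T i b b')
    (ha : 0 < M a a') (hb : 0 < M b b') (h1 : M a b' ≤ 0) (h2 : M b a' ≤ 0) : False := by
  rw [M_T hA] at ha
  rw [M_T hB] at hb
  have h3 := (le_M i a b').1
  have h4 := (le_M i b a').1
  linarith

theorem aux1 : ∀ i j : Fin 3, j ≠ i → j = i + 1 ∨ j = i + 2 := by decide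

theorem aux2 : ∀ i : Fin 3, i + 1 + 1 = i + 2 := by decide

theorem aux3 : ∀ i : Fin 3, i + 1 + 2 = i := by decide

theorem aux4 : ∀ i : Fin 3, i + 2 + 1 = i := by decide

theorem aux5 : ∀ i : Fin 3, i + 2 + 2 = i + 1 := by decide

/-- The pairs on the other side of a chain of type i straddle its middle element. -/
theorem straddle {i j : Fin 3} (hij : j ≠ i) {a1 a2 a3 b b' : Fin 3 → ℝ} (h12 : T i a1 a2)
    (h23 : T i a2 a3) (n12 : 0 < M a1 a2) (n23 : 0 < M a2 a3) (hb : T j b b') (nb : 0 < M b b')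
    (q1 : M a1 b ≤ 0) (q2 : M a2 b ≤ 0) (q2' : M a2 b' ≤ 0) (q3 : M a3 b ≤ 0)
    (q3' : M a3 b' ≤ 0) :
    (b (i + 1) < a2 (i + 1) ∧ a2 (i + 1) < b' (i + 1)) ∨
      (b' (i + 1) < a2 (i + 1) ∧ a2 (i + 1) < b (i + 1)) := by
  rw [M_T h12] at n12
  rw [M_T h23] at n23
  rw [M_T hb] at nb
  have k1 := (le_M i a1 b).1
  have k2 := le_M i a2 b
  have k2' := le_M i a2 b'
  have k3 := (le_M i b a3).1
  have k3' := (le_M i b' a3).1
  rw [M_comm] at k3 k3'
  rcases aux1 i j hij with rfl | rfl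
  · rw [aux2, aux3] at nb
    left
    constructor <;> linarith [k2.1, k2.2.1, k2.2.2, k2'.1, k2'.2.1, k2'.2.2]
  · rw [aux4, aux5] at nb
    right
    constructor <;> linarith [k2.1, k2.2.1, k2.2.2, k2'.1, k2'.2.1, k2'.2.2]

/-- A pair of type i in one of the two orders. -/
def S (i : Fin 3) (p q : Fin 3 → ℝ) : Prop := T i p q ∨ T i q p

theorem S_symm {i : Fin 3} {p q : Fin 3 → ℝ} (h : S i p q) : S i q p := Or.symm h

theorem same_type' {i : Fin 3} {a a' b b' : Fin 3 → ℝ} (hA : S i a a') (hB : S i b b')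
    (ha : 0 < M a a') (hb : 0 < M b b') (h1 : M a b ≤ 0) (h2 : M a b' ≤ 0) (h3 : M a' b ≤ 0)
    (h4 : M a' b' ≤ 0) : False := by
  rcases hA with hA | hA <;> rcases hB with hB | hB
  · exact same_type hA hB ha hb h2 (by rw [M_comm]; exact h3)
  · exact same_type hA hB ha (by rw [M_comm]; exact hb) h1 (by rw [M_comm]; exact h4)
  · exact same_type hA hB (by rw [M_comm]; exact ha) hb h4 (by rw [M_comm]; exact h1)
  · exact same_type hA hB (by rw [M_comm]; exact ha) (by rw [M_comm]; exact hb) h3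
      (by rw [M_comm]; exact h2)

theorem straddle' {i j : Fin 3} (hij : j ≠ i) {a1 a2 a3 b b' : Fin 3 → ℝ} (h12 : T i a1 a2)
    (h23 : T i a2 a3) (n12 : 0 < M a1 a2) (n23 : 0 < M a2 a3) (hb : S j b b') (nb : 0 < M b b')
    (q1 : M a1 b ≤ 0) (q1' : M a1 b' ≤ 0) (q2 : M a2 b ≤ 0) (q2' : M a2 b' ≤ 0)
    (q3 : M a3 b ≤ 0) (q3' : M a3 b' ≤ 0) :
    (b (i + 1) < a2 (i + 1) ∧ a2 (i + 1) < b' (i + 1)) ∨
      (b' (i + 1) < a2 (i + 1) ∧ a2 (i + 1) < b (i + 1)) := by
  rcases hb with hb | hb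
  · exact straddle hij h12 h23 n12 n23 hb nb q1 q2 q2' q3 q3'
  · exact (straddle hij h12 h23 n12 n23 hb (by rw [M_comm]; exact nb) q1' q2' q2 q3' q3).symm

/-- A chain of type i against three pairwise non-adjacent points with pairs of other types. -/
theorem chain {i : Fin 3} {a1 a2 a3 : Fin 3 → ℝ} (B : Fin 3 → Fin 3 → ℝ) (h12 : T i a1 a2)
    (h23 : T i a2 a3) (n12 : 0 < M a1 a2) (n23 : 0 < M a2 a3)
    (nB : ∀ k l, k ≠ l → 0 < M (B k) (B l)) (q1 : ∀ k, M a1 (B k) ≤ 0)
    (q2 : ∀ k, M a2 (B k) ≤ 0) (q3 : ∀ k, M a3 (B k) ≤ 0) (j01 j12 j02 : Fin 3)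
    (s01 : S j01 (B 0) (B 1)) (s12 : S j12 (B 1) (B 2)) (s02 : S j02 (B 0) (B 2))
    (d01 : j01 ≠ i) (d12 : j12 ≠ i) (d02 : j02 ≠ i) : False := by
  have k01 := straddle' d01 h12 h23 n12 n23 s01 (nB 0 1 (by decide)) (q1 0) (q1 1) (q2 0) (q2 1)
    (q3 0) (q3 1)
  have k12 := straddle' d12 h12 h23 n12 n23 s12 (nB 1 2 (by decide)) (q1 1) (q1 2) (q2 1) (q2 2)
    (q3 1) (q3 2)
  have k02 := straddle' d02 h12 h23 n12 n23 s02 (nB 0 2 (by decide)) (q1 0) (q1 2) (q2 0) (q2 2)
    (q3 0) (q3 2)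
  rcases k01 with ⟨h1, h2⟩ | ⟨h1, h2⟩ <;> rcases k12 with ⟨h3, h4⟩ | ⟨h3, h4⟩ <;>
    rcases k02 with ⟨h5, h6⟩ | ⟨h5, h6⟩ <;> linarith

theorem one_type {i : Fin 3} (A B : Fin 3 → Fin 3 → ℝ)
    (nA : ∀ k l, k ≠ l → 0 < M (A k) (A l)) (nB : ∀ k l, k ≠ l → 0 < M (B k) (B l))
    (hAB : ∀ k l, M (A k) (B l) ≤ 0) (a01 : S i (A 0) (A 1)) (a12 : S i (A 1) (A 2))
    (a02 : S i (A 0) (A 2)) (j01 j12 j02 : Fin 3)
    (s01 : S j01 (B 0) (B 1)) (s12 : S j12 (B 1) (B 2)) (s02 : S j02 (B 0) (B 2)) : False := by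
  have d01 : j01 ≠ i := by
    rintro rfl
    exact same_type' a01 s01 (nA 0 1 (by decide)) (nB 0 1 (by decide)) (hAB _ _) (hAB _ _)
      (hAB _ _) (hAB _ _)
  have d12 : j12 ≠ i := by
    rintro rfl
    exact same_type' a01 s12 (nA 0 1 (by decide)) (nB 1 2 (by decide)) (hAB _ _) (hAB _ _)
      (hAB _ _) (hAB _ _)
  have d02 : j02 ≠ i := by
    rintro rfl
    exact same_type' a01 s02 (nA 0 1 (by decide)) (nB 0 2 (by decide)) (hAB _ _) (hAB _ _)
      (hAB _ _) (hAB _ _)
  have go : ∀ x y z : Fin 3, x ≠ y → y ≠ z → T i (A x) (A y) → T i (A y) (A z) → False := by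
    intro x y z hxy hyz h1 h2
    exact chain B h1 h2 (nA x y hxy) (nA y z hyz) nB (hAB x) (hAB y) (hAB z) j01 j12 j02 s01 s12
      s02 d01 d12 d02
  rcases a01 with a01 | a01 <;> rcases a12 with a12 | a12 <;> rcases a02 with a02 | a02
  · exact go 0 1 2 (by decide) (by decide) a01 a12
  · exact go 0 1 2 (by decide) (by decide) a01 a12
  · exact go 0 2 1 (by decide) (by decide) a02 a12
  · exact go 2 0 1 (by decide) (by decide) a02 a01
  · exact go 1 0 2 (by decide) (by decide) a01 a02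
  · exact go 1 2 0 (by decide) (by decide) a12 a02
  · exact go 2 1 0 (by decide) (by decide) a12 a01
  · exact go 2 1 0 (by decide) (by decide) a12 a01

theorem aux6 (a b c x y z : Fin 3) (h1 : a ≠ x) (h2 : a ≠ y) (h3 : a ≠ z) (h4 : b ≠ x)
    (h5 : b ≠ y) (h6 : b ≠ z) (h7 : c ≠ x) (h8 : c ≠ y) (h9 : c ≠ z) :
    (b = a ∧ c = a) ∨ (y = x ∧ z = x) := by omega

/-- There is no K_{3,3}. -/
theorem no_k33 (A B : Fin 3 → Fin 3 → ℝ) (hA : ∀ k, M (A k) (A k) ≤ 0)
    (hB : ∀ k, M (B k) (B k) ≤ 0) (nA : ∀ k l, k ≠ l → 0 < M (A k) (A l))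
    (nB : ∀ k l, k ≠ l → 0 < M (B k) (B l)) (hAB : ∀ k l, M (A k) (B l) ≤ 0) : False := by
  obtain ⟨a, a01⟩ : ∃ i, S i (A 0) (A 1) := exists_type (hA 0) (hA 1) (nA 0 1 (by decide))
  obtain ⟨b, a12⟩ : ∃ i, S i (A 1) (A 2) := exists_type (hA 1) (hA 2) (nA 1 2 (by decide))
  obtain ⟨c, a02⟩ : ∃ i, S i (A 0) (A 2) := exists_type (hA 0) (hA 2) (nA 0 2 (by decide))
  obtain ⟨x, b01⟩ : ∃ i, S i (B 0) (B 1) := exists_type (hB 0) (hB 1) (nB 0 1 (by decide))
  obtain ⟨y, b12⟩ : ∃ i, S i (B 1) (B 2) := exists_type (hB 1) (hB 2) (nB 1 2 (by decide))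
  obtain ⟨z, b02⟩ : ∃ i, S i (B 0) (B 2) := exists_type (hB 0) (hB 2) (nB 0 2 (by decide))
  have st : ∀ (i : Fin 3) (k l m n : Fin 3), k ≠ l → m ≠ n → S i (A k) (A l) →
      S i (B m) (B n) → False := by
    intro i k l m n hkl hmn h1 h2
    exact same_type' h1 h2 (nA k l hkl) (nB m n hmn) (hAB _ _) (hAB _ _) (hAB _ _) (hAB _ _)
  have key := aux6 a b c x y z
    (by rintro rfl; exact st _ _ _ _ _ (by decide) (by decide) a01 b01)
    (by rintro rfl; exact st _ _ _ _ _ (by decide) (by decide) a01 b12)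
    (by rintro rfl; exact st _ _ _ _ _ (by decide) (by decide) a01 b02)
    (by rintro rfl; exact st _ _ _ _ _ (by decide) (by decide) a12 b01)
    (by rintro rfl; exact st _ _ _ _ _ (by decide) (by decide) a12 b12)
    (by rintro rfl; exact st _ _ _ _ _ (by decide) (by decide) a12 b02)
    (by rintro rfl; exact st _ _ _ _ _ (by decide) (by decide) a02 b01)
    (by rintro rfl; exact st _ _ _ _ _ (by decide) (by decide) a02 b12)
    (by rintro rfl; exact st _ _ _ _ _ (by decide) (by decide) a02 b02)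
  rcases key with ⟨h1, h2⟩ | ⟨h1, h2⟩
  · rw [h1] at a12
    rw [h2] at a02
    exact one_type A B nA nB hAB a01 a12 a02 x y z b01 b12 b02
  · rw [h1] at b12
    rw [h2] at b02
    exact one_type B A nB nA (fun k l => by rw [M_comm]; exact hAB l k) b01 b12 b02 a b c a01
      a12 a02

/-- The point of a vertex of a tolerance representation. -/
def pt {V : Type} (ρ : TolRep V) (v : V) : Fin 3 → ℝ := ![ρ.L v, -ρ.R v, ρ.t v]

theorem M_pt {V : Type} (ρ : TolRep V) (x y : V) :
    M (pt ρ x) (pt ρ y) = max (ρ.t x) (ρ.t y) - (min (ρ.R x) (ρ.R y) - max (ρ.L x) (ρ.L y)) := by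
  simp only [M, pt, Matrix.cons_val_zero, Matrix.cons_val_one, Matrix.cons_val]
  rw [max_neg_neg]
  ring

theorem meet_iff {V : Type} (ρ : TolRep V) (x y : V) :
    max (ρ.t x) (ρ.t y) ≤ ρ.meet x y ↔ M (pt ρ x) (pt ρ y) ≤ 0 := by
  rw [M_pt, TolRep.meet, le_max_iff]
  constructor
  · rintro (h | h)
    · have := ρ.pos x
      have h2 := le_max_left (ρ.t x) (ρ.t y)
      linarith
    · linarith
  · intro h
    right
    linarith

theorem not_max : ¬ IsMaxTolerance (completeBipartiteGraph (Fin 3) (Fin 3)) := by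
  rintro ⟨ρ, hρ⟩
  have hadj : ∀ i j : Fin 3, M (pt ρ (Sum.inl i)) (pt ρ (Sum.inr j)) ≤ 0 := by
    intro i j
    rw [← meet_iff]
    exact (hρ (Sum.inl i) (Sum.inr j) (by simp)).1 (by simp)
  have hself : ∀ v w : Fin 3 ⊕ Fin 3, M (pt ρ v) (pt ρ w) ≤ 0 → M (pt ρ v) (pt ρ v) ≤ 0 := by
    intro v w h
    simp only [M, max_self] at h ⊢
    have h1 := le_max_left (pt ρ v 0) (pt ρ w 0)
    have h2 := le_max_left (pt ρ v 1) (pt ρ w 1)
    have h3 := le_max_left (pt ρ v 2) (pt ρ w 2)
    linarith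
  refine no_k33 (fun i => pt ρ (Sum.inl i)) (fun i => pt ρ (Sum.inr i)) ?_ ?_ ?_ ?_ hadj
  · intro i
    exact hself _ _ (hadj i 0)
  · intro i
    exact hself _ (Sum.inl 0) (by rw [M_comm]; exact hadj 0 i)
  · intro i j hij
    by_contra h
    push Not at h
    rw [← meet_iff, ← hρ _ _ (by simpa using hij)] at h
    simp at h
  · intro i j hij
    by_contra h
    push Not at h
    rw [← meet_iff, ← hρ _ _ (by simpa using hij)] at h
    simp at h

/-- **Negative answer to Q1**: the complete bipartite graph K_{3,3} is a bounded tolerance graph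
but not a max-tolerance graph. -/
theorem result : IsBoundedTolerance (completeBipartiteGraph (Fin 3) (Fin 3)) ∧
    ¬ IsMaxTolerance (completeBipartiteGraph (Fin 3) (Fin 3)) :=
  ⟨bounded, not_max⟩

end Pool.Agent.Results.MP_78c384_co.CompleteBipartiteThreeThree
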